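import Pool.Agent.R812.SemiLat

/-!
# A `c`-complete Hausdorff topological semilattice which is not `s`-complete
-/

set_option autoImplicit false

namespace Pool.Agent.Results.MP_5a7388_gt.CNotS

open Pool.Agent.R812.SemiDefs

/-- There is a Hausdorff topological semilattice which is `c`-complete and not `s`-complete. -/
theorem result : ∃ (X : Type) (_ : TopologicalSpace X) (_ : CommSemigroup X),
    T2Space X ∧ ContinuousMul X ∧ (∀ x : X, x * x = x) ∧ CComplete X ∧ ¬ SComplete X :=
  ⟨Pool.Agent.R812.SemiLat.X, inferInstance, inferInstance, inferInstance, inferInstance,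
    Pool.Agent.R812.SemiLat.idem, Pool.Agent.R812.SemiLat.ccomplete,
    Pool.Agent.R812.SemiLat.not_scomplete⟩

end Pool.Agent.Results.MP_5a7388_gt.CNotS
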